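import Pool.Agent.T2h09.PR.Loc
import Pool.Agent.T2h09.ND.Top
import Pool.Agent.W619.TW.PDefs

/-!
Norms of sections of `m (K + Γ)`, and algebraically independent sections of `m (K + Δ)`.
-/

set_option autoImplicit false
set_option linter.overlappingInstances false
set_option linter.unusedSectionVars false

open FF Polynomial Pool.Agent.W603.LV Pool.Agent.W619.PQ Pool.Agent.W602.GT Pool.Agent.Y172
open Pool.Agent.Y692.NT Pool.Agent.T2h09.ND Pool.Agent.W619.TW

namespace Pool.Agent.T2h09.PR

section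

variable {K : Type} [Field K] [Algebra ℂ K] {n : ℕ}

theorem pairSec_iff {δ : Place ℂ K → ℚ} {m : ℕ} {ω : (Fin n → Derivation ℂ K K) → K} :
    IsPairSec ℂ K n δ {1} m 0 ω ↔ IsPluri m ω ∧ ∀ P : Place ℂ K, Divisorial n P →
      ∀ D : Fin n → Derivation ℂ K K, (∀ l, DerReg P (D l)) →
        ω D = 0 ∨ -((m : ℚ) * δ P) ≤ P.ord (ω D) := by
  constructor
  · rintro ⟨h1, h2⟩
    refine ⟨h1, fun P hP D hD => ?_⟩
    rcases h2 P hP D hD with h | ⟨s, hs, hs0, h⟩
    · exact Or.inl h
    · right
      rw [Nat.cast_zero, zero_mul, zero_sub] at h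
      exact h
  · rintro ⟨h1, h2⟩
    refine ⟨h1, fun P hP D hD => ?_⟩
    rcases h2 P hP D hD with h | h
    · exact Or.inl h
    · right
      refine ⟨1, Finset.mem_singleton_self _, one_ne_zero, ?_⟩
      rw [Nat.cast_zero, zero_mul, zero_sub]
      exact h

end

section

variable {K L : Type} [Field K] [Field L] [Algebra ℂ K] [Algebra ℂ L] [Algebra K L]
  [IsScalarTower ℂ K L] [FiniteDimensional K L] [Algebra.EssFiniteType ℂ K]
  [Algebra.EssFiniteType ℂ L] {n : ℕ} {ι : Type} [Fintype ι] [DecidableEq ι]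

/-- **The norm of a form times a power of the determinant.** -/
theorem normForm_pair (hn : Algebra.trdeg ℂ K = n) {y : Fin n → K}
    {E : Fin n → Derivation ℂ K K}
    (hy : IsTranscendenceBasis ℂ y) (hE : ∀ i j, E i (y j) = if i = j then 1 else 0)
    {E' : Fin n → Derivation ℂ L L}
    (hE' : ∀ i f, E' i (algebraMap K L f) = algebraMap K L (E i f)) (h h' : Module.Basis ι K L)
    {δ : Place ℂ K → ℚ} {γ : Place ℂ L → ℚ}
    {m s : ℕ} {W : (Fin n → Derivation ℂ L L) → L} (hW : IsPluri m W)
    (hγ : ∀ (Q : Place ℂ L) (P : Place ℂ K) (e : ℕ), Over Q P e → Divisorial n P →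
      (m : ℚ) * γ Q ≤ m * (e * δ P) + ((s : ℚ) - m) * (e - 1))
    (hreg : ∀ Q : Place ℂ L, Divisorial n Q → ∀ i j, ∀ D : Fin n → Derivation ℂ L L,
      (∀ l, DerReg Q (D l)) →
      (h i * h' j) ^ s * W D = 0 ∨ -((m : ℚ) * γ Q) ≤ Q.ord ((h i * h' j) ^ s * W D))
    (P : Place ℂ K) (hP : Divisorial n P) (G : Fin n → Derivation ℂ K K)
    (hG : ∀ l, DerReg P (G l)) :
    pf y (Module.finrank K L * m) (Algebra.norm K (W E') * dt h h' ^ s) G = 0 ∨
      -(((Module.finrank K L * m : ℕ) : ℚ) * δ P) ≤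
        P.ord (pf y (Module.finrank K L * m) (Algebra.norm K (W E') * dt h h' ^ s) G) := by
  classical
  have hnL : Algebra.trdeg ℂ L = n := trdeg_up (K := K) hn
  obtain ⟨yP, EP, i0, hl⟩ := exists_loc hn hP
  choose EP' hEP' using fun i => exists_lift (L := L) hn (EP i)
  obtain ⟨B, hB⟩ : ∃ B : Matrix (Fin n) (Fin n) K, B = Matrix.of fun i j => E i (yP j) :=
    ⟨_, rfl⟩
  have hC : (Matrix.of fun i j => G i (yP j) : Matrix (Fin n) (Fin n) K).det =
      (Matrix.of fun i j => G i (y j) : Matrix (Fin n) (Fin n) K).det * B.det := by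
    rw [← Matrix.det_mul]
    congr 1
    ext i j
    rw [Matrix.of_apply, Matrix.mul_apply, hB]
    have h1 := Pool.Agent.W73.PG.PULL.expand y hy E hE (G i)
    conv_lhs => rw [← h1]
    rw [sum_smul_apply]
    rfl
  have hWB : W E' = algebraMap K L B.det ^ m * W EP' := by
    have h1 := pluri_coord (hl.bas.algebraMap_comp (A := L)) (lift_dual hl.dual hEP') hW E'
    rw [h1]
    congr 2
    rw [hB, RingHom.map_det]
    congr 1
    ext i j
    rw [Matrix.of_apply, RingHom.mapMatrix_apply, Matrix.map_apply, Matrix.of_apply]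
    exact hE' i (yP j)
  have hval : pf y (Module.finrank K L * m) (Algebra.norm K (W E') * dt h h' ^ s) G =
      (Matrix.of fun i j => G i (yP j) : Matrix (Fin n) (Fin n) K).det ^
        (Module.finrank K L * m) * (Algebra.norm K (W EP') * dt h h' ^ s) := by
    rw [pf, hC, hWB, map_mul, map_pow, Algebra.norm_algebraMap]
    ring
  rw [hval]
  have h9 : Ge P 0 (Matrix.of fun i j => G i (yP j) : Matrix (Fin n) (Fin n) K).det :=
    ge_det P _ _ (fun _ _ => 0) (fun a b => hG a _ (hl.reg b)) fun σ => by simp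
  have h10 := h9.pow (Module.finrank K L * m)
  rw [mul_zero] at h10
  have h11 := norm_disc_ge P h h' s (-((m : ℚ) * δ P)) (W EP') fun Q e hQ i j => by
    have hQd : Divisorial n Q := divisorial_up hQ hP
    have hW' : IsPluri m fun D => (h i * h' j) ^ s * W D := by
      intro A D
      change (h i * h' j) ^ s * W _ = _
      rw [hW A D]
      ring
    have h1 := down_ge hnL hQ hQd hl hEP' hW' (c := ((-((m : ℚ) * γ Q) : ℚ) : ℝ))
      (fun G' hG' => by
        rcases hreg Q hQd i j G' hG' with hx | hx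
        · exact Or.inl hx
        · right
          have h2 := (Rat.cast_le (K := ℝ)).2 hx
          rwa [Rat.cast_intCast] at h2)
    rcases h1 with h1 | h1
    · exact Or.inl h1
    · right
      have h2 : (((-((m : ℚ) * γ Q) + m - e * m : ℚ)) : ℝ) ≤
          ((Q.ord ((h i * h' j) ^ s * W EP') : ℚ) : ℝ) := by
        rw [Rat.cast_intCast]
        push_cast at h1 ⊢
        exact h1
      have h3 := (Rat.cast_le (K := ℝ)).1 h2
      have h4 := hγ Q P e hQ hP
      linarith
  by_cases h0 : (Matrix.of fun i j => G i (yP j) : Matrix (Fin n) (Fin n) K).det ^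
      (Module.finrank K L * m) = 0
  · left
    rw [h0, zero_mul]
  rcases h11 with h11 | h11
  · left
    rw [h11, mul_zero]
  by_cases h12 : Algebra.norm K (W EP') * dt h h' ^ s = 0
  · left
    rw [h12, mul_zero]
  right
  rw [P.ord_mul h0 h12]
  have h13 : (0 : ℚ) ≤ (P.ord ((Matrix.of fun i j => G i (yP j) :
      Matrix (Fin n) (Fin n) K).det ^ (Module.finrank K L * m)) : ℚ) := by
    exact_mod_cast h10.resolve_left h0
  push_cast
  linarith

/-- **Kodaira dimension from algebraic ratios of values.** -/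
theorem pairKod_of_values {y : Fin n → K} {E : Fin n → Derivation ℂ K K}
    (hE : ∀ i j, E i (y j) = if i = j then 1 else 0) {M : ℕ}
    {δ : Place ℂ K → ℚ} {ι' : Type}
    (T : ι' → K) (f0 : ι') (hT0 : T f0 ≠ 0)
    (hreg : ∀ f, IsPairSec ℂ K n δ {1} M 0 (pf y M (T f))) {a : ℕ}
    {u : Fin a → L} (hu : AlgebraicIndependent ℂ u)
    (halg : ∀ j, IsAlgebraic (IntermediateField.adjoin ℂ (Set.range fun f => T f / T f0)) (u j)) :
    ∃ ω : Fin (a + 1) → (Fin n → Derivation ℂ K K) → K,
      (∀ l, IsPairSec ℂ K n δ {1} M 0 (ω l)) ∧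
      ω 0 E ≠ 0 ∧ AlgebraicIndependent ℂ (fun l : Fin a => ω l.succ E / ω 0 E) := by
  classical
  obtain ⟨S, hS⟩ : ∃ S : Set K, S = Set.range fun f => T f / T f0 := ⟨_, rfl⟩
  rw [← hS] at halg
  have halg' : ∀ j, IsAlgebraic (IntermediateField.adjoin ℂ (algebraMap K L '' S)) (u j) := by
    intro j
    obtain ⟨p, hp0, hp⟩ := halg j
    have hmem : ∀ c : IntermediateField.adjoin ℂ S, algebraMap K L c ∈
        IntermediateField.adjoin ℂ (algebraMap K L '' S) := by
      intro c
      have h1 : IntermediateField.adjoin ℂ (algebraMap K L '' S) =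
          (IntermediateField.adjoin ℂ S).map (IsScalarTower.toAlgHom ℂ K L) := by
        rw [IntermediateField.adjoin_map]
        rfl
      rw [h1]
      exact ⟨c, c.2, rfl⟩
    let φ : IntermediateField.adjoin ℂ S →+* IntermediateField.adjoin ℂ (algebraMap K L '' S) :=
      (((algebraMap K L).comp (algebraMap (IntermediateField.adjoin ℂ S) K)).codRestrict _ hmem)
    refine ⟨p.map φ, ?_, ?_⟩
    · exact (Polynomial.map_ne_zero_iff φ.injective).2 hp0
    · rw [Polynomial.aeval_def, Polynomial.eval₂_map]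
      exact hp
  obtain ⟨s, hsS, hs⟩ := exists_indep (algebraMap K L '' S) hu halg'
  choose t htS ht using hsS
  have hti : AlgebraicIndependent ℂ t := by
    refine AlgebraicIndependent.of_comp (IsScalarTower.toAlgHom ℂ K L) ?_
    have h1 : (IsScalarTower.toAlgHom ℂ K L) ∘ t = s := by
      funext i
      exact ht i
    rw [h1]
    exact hs
  rw [hS] at htS
  choose f hf using htS
  refine ⟨Fin.cons (pf y M (T f0)) fun i => pf y M (T (f i)), fun j => ?_, ?_, ?_⟩
  · induction j using Fin.cases with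
    | zero => exact hreg f0
    | succ i => exact hreg (f i)
  · rw [Fin.cons_zero, pf_self hE]
    exact hT0
  · have h1 : (fun i : Fin a => (Fin.cons (pf y M (T f0)) (fun i => pf y M (T (f i))) :
        Fin (a + 1) → (Fin n → Derivation ℂ K K) → K) i.succ E /
        (Fin.cons (pf y M (T f0)) (fun i => pf y M (T (f i))) :
        Fin (a + 1) → (Fin n → Derivation ℂ K K) → K) 0 E) = t := by
      funext i
      rw [Fin.cons_succ, Fin.cons_zero, pf_self hE, pf_self hE]
      exact hf i
    rw [h1]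
    exact hti

end

end Pool.Agent.T2h09.PR
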