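import Pool.Agent.T2h09.PR.Form
import Pool.Agent.W303.PG.Kod
import Pool.Agent.W636.PG.Trans
import Pool.Agent.T2h09.ND.Nu

/-!
Growth of sections of `m (K + Δ)` from algebraically independent sections, and the numerical
dimension under finite extensions.
-/

set_option autoImplicit false
set_option linter.overlappingInstances false
set_option linter.unusedSectionVars false

open FF Polynomial Pool.Agent.W603.LV Pool.Agent.W619.PQ Pool.Agent.W602.GT Pool.Agent.Y172
open Pool.Agent.Y692.NT Pool.Agent.T2h09.ND Pool.Agent.W619.TW Pool.Agent.W303.PG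

namespace Pool.Agent.T2h09.PR

section

variable {K : Type} [Field K] [Algebra ℂ K] {n : ℕ} {δ : Place ℂ K → ℚ}

theorem psec_one : IsPairSec ℂ K n δ {1} 0 0 (fun _ => 1) := by
  rw [pairSec_iff]
  refine ⟨fun A D => by simp, fun P _ D _ => ?_⟩
  right
  rw [P.ord_one]
  simp

theorem psec_mul {a b : ℕ} {η ζ : (Fin n → Derivation ℂ K K) → K}
    (hη : IsPairSec ℂ K n δ {1} a 0 η) (hζ : IsPairSec ℂ K n δ {1} b 0 ζ) :
    IsPairSec ℂ K n δ {1} (a + b) 0 (fun D => η D * ζ D) := by
  rw [pairSec_iff] at *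
  refine ⟨fun A D => ?_, fun P hP D hD => ?_⟩
  · change η _ * ζ _ = _
    rw [hη.1 A D, hζ.1 A D, pow_add]
    ring
  · by_cases hf0 : η D = 0
    · left
      rw [hf0, zero_mul]
    by_cases hg0 : ζ D = 0
    · left
      rw [hg0, mul_zero]
    right
    have h1 := (hη.2 P hP D hD).resolve_left hf0
    have h2 := (hζ.2 P hP D hD).resolve_left hg0
    rw [P.ord_mul hf0 hg0]
    push_cast
    linarith

theorem psec_pow {a : ℕ} {η : (Fin n → Derivation ℂ K K) → K}
    (hη : IsPairSec ℂ K n δ {1} a 0 η) (p : ℕ) :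
    IsPairSec ℂ K n δ {1} (p * a) 0 (fun D => η D ^ p) := by
  induction p with
  | zero =>
    rw [Nat.zero_mul]
    simp only [pow_zero]
    exact psec_one
  | succ p ih =>
    rw [Nat.succ_mul]
    simp only [pow_succ]
    exact psec_mul ih hη

theorem psec_prod {ι : Type} (s : Finset ι) (a : ι → ℕ)
    (η : ι → (Fin n → Derivation ℂ K K) → K)
    (h : ∀ l ∈ s, IsPairSec ℂ K n δ {1} (a l) 0 (η l)) :
    IsPairSec ℂ K n δ {1} (∑ l ∈ s, a l) 0 (fun D => ∏ l ∈ s, η l D) := by
  classical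
  induction s using Finset.induction_on with
  | empty =>
    simp only [Finset.sum_empty, Finset.prod_empty]
    exact psec_one
  | insert i s hi ih =>
    rw [Finset.sum_insert hi]
    simp only [Finset.prod_insert hi]
    exact psec_mul (h i (Finset.mem_insert_self i s))
      (ih fun l hl => h l (Finset.mem_insert_of_mem hl))

theorem pairKodGe_of_indep {h m : ℕ} (hm : 0 < m) {ω : Fin (h + 1) → (Fin n → Derivation ℂ K K) → K}
    (hω : ∀ l, IsPairSec ℂ K n δ {1} m 0 (ω l)) {D0 : Fin n → Derivation ℂ K K}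
    (hD0 : ω 0 D0 ≠ 0) (hind : AlgebraicIndependent ℂ (fun l : Fin h => ω l.succ D0 / ω 0 D0)) :
    PairKodGe ℂ K n δ h := by
  refine ⟨(h + 1) * m, Nat.mul_pos (Nat.succ_pos h) hm, fun j hj => ?_⟩
  let M : ℕ := j * (h + 1)
  have hMm : M * m = j * ((h + 1) * m) := by
    change j * (h + 1) * m = j * ((h + 1) * m); ring
  have hrM : ∀ r : Fin h → Fin j, ∑ l, (r l : ℕ) ≤ M := by
    intro r
    calc ∑ l, (r l : ℕ) ≤ ∑ _l : Fin h, j := Finset.sum_le_sum fun l _ => (r l).2.le
      _ = h * j := by simp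
      _ ≤ j * (h + 1) := by nlinarith
  let η : (Fin h → Fin j) → (Fin n → Derivation ℂ K K) → K := fun r D =>
    ω 0 D ^ (M - ∑ l, (r l : ℕ)) * ∏ l : Fin h, ω l.succ D ^ (r l : ℕ)
  have hη : ∀ r, IsPairSec ℂ K n δ {1} (M * m) 0 (η r) := by
    intro r
    have h1 := psec_mul (psec_pow (hω 0) (M - ∑ l, (r l : ℕ)))
      (psec_prod Finset.univ (fun l : Fin h => (r l : ℕ) * m)
        (fun l D => ω l.succ D ^ (r l : ℕ)) (fun l _ => psec_pow (hω l.succ) (r l : ℕ)))
    have h2 : (M - ∑ l, (r l : ℕ)) * m + ∑ l, (r l : ℕ) * m = M * m := by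
      rw [← Finset.sum_mul, ← add_mul, Nat.sub_add_cancel (hrM r)]
    rw [h2] at h1
    exact h1
  have hli : LinearIndependent ℂ η := by
    let φ : ((Fin n → Derivation ℂ K K) → K) →ₗ[ℂ] K := LinearMap.proj D0
    refine LinearIndependent.of_comp φ ?_
    let W : K := ω 0 D0 ^ M
    have hW : W ≠ 0 := pow_ne_zero _ hD0
    have e : φ ∘ η = (LinearMap.mulLeft ℂ W) ∘ fun r : Fin h → Fin j =>
        ∏ l, (ω l.succ D0 / ω 0 D0) ^ (r l : ℕ) := by
      funext r
      change ω 0 D0 ^ (M - ∑ l, (r l : ℕ)) * ∏ l : Fin h, ω l.succ D0 ^ (r l : ℕ) =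
        ω 0 D0 ^ M * ∏ l, (ω l.succ D0 / ω 0 D0) ^ (r l : ℕ)
      have h3 : ∏ l : Fin h, ω l.succ D0 ^ (r l : ℕ) =
          ω 0 D0 ^ (∑ l, (r l : ℕ)) * ∏ l, (ω l.succ D0 / ω 0 D0) ^ (r l : ℕ) := by
        rw [← Finset.prod_pow_eq_pow_sum, ← Finset.prod_mul_distrib]
        refine Finset.prod_congr rfl fun l _ => ?_
        rw [← mul_pow, mul_div_cancel₀ _ hD0]
      rw [h3, ← mul_assoc, ← pow_add, Nat.sub_add_cancel (hrM r)]
    rw [e]
    exact (mono_indep _ hind).map' (LinearMap.mulLeft ℂ W)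
      (LinearMap.ker_eq_bot.2 (mul_right_injective₀ hW))
  have hcardr : Fintype.card (Fin h → Fin j) = j ^ h := by simp
  let e : Fin (j ^ h) ≃ (Fin h → Fin j) := (Fintype.equivFinOfCardEq hcardr).symm
  refine ⟨fun l => η (e l), hli.comp e e.injective, fun l => ?_⟩
  rw [← hMm]
  exact hη (e l)

end

section

variable {K L : Type} [Field K] [Field L] [Algebra ℂ K] [Algebra ℂ L] [Algebra K L]
  [IsScalarTower ℂ K L] [FiniteDimensional K L] [Algebra.EssFiniteType ℂ K]
  [Algebra.EssFiniteType ℂ L] {n : ℕ}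

/-- pull-backs of sections of `m (K + Δ) + j A` -/
theorem pair_pull (hn : Algebra.trdeg ℂ K = n) {y : Fin n → K}
    {E : Fin n → Derivation ℂ K K}
    (hy : IsTranscendenceBasis ℂ y) (hE : ∀ i j, E i (y j) = if i = j then 1 else 0)
    {δ : Place ℂ K → ℚ} {δ' : Place ℂ L → ℚ}
    (hδ : ∀ (Q : Place ℂ L) (P : Place ℂ K) (e : ℕ), Over Q P e → Divisorial n P →
      (e : ℚ) * δ P - (e - 1) ≤ δ' Q) [DecidableEq L] (S : Finset K) (m j : ℕ)
    {ω : (Fin n → Derivation ℂ K K) → K} (hω : IsPairSec ℂ K n δ S m j ω) :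
    IsPairSec ℂ L n δ' (S.image (algebraMap K L)) m j
      (fun D => (Matrix.of fun a b => D a (algebraMap K L (y b))).det ^ m *
        algebraMap K L (ω E)) := by
  classical
  obtain ⟨Φ, hΦ⟩ : ∃ Φ : (Fin n → Derivation ℂ L L) → L, Φ =
      fun D => (Matrix.of fun a b => D a (algebraMap K L (y b))).det ^ m *
        algebraMap K L (ω E) := ⟨_, rfl⟩
  rw [← hΦ]
  have hpl : IsPluri m Φ := by
    intro A D
    have e1 : (Matrix.of fun a b => (∑ j, A a j • D j) (algebraMap K L (y b))) =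
        A * Matrix.of fun a b => D a (algebraMap K L (y b)) := by
      ext a b
      rw [Matrix.of_apply, Matrix.mul_apply, sum_smul_apply]
      rfl
    rw [hΦ]
    change (Matrix.of fun a b => (∑ j, A a j • D j) (algebraMap K L (y b))).det ^ m * _ = _
    rw [e1, Matrix.det_mul, mul_pow, mul_assoc]
  refine ⟨hpl, fun Q hQ D hD => ?_⟩
  obtain ⟨P, e, h⟩ := exists_below (K := K) Q
  have hP : Divisorial n P := divisorial_down h hQ
  obtain ⟨yP, EP, i0, hl⟩ := exists_loc hn hP
  choose EP' hEP' using fun i => exists_lift (L := L) hn (EP i)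
  have hv : Φ EP' = algebraMap K L (ω EP) := by
    rw [hΦ]
    change (Matrix.of fun a b => EP' a (algebraMap K L (y b))).det ^ m * _ = _
    rw [pluri_coord hy hE hω.1 EP, map_mul, map_pow, RingHom.map_det]
    congr 3
    ext a b
    rw [Matrix.of_apply, RingHom.mapMatrix_apply, Matrix.map_apply, Matrix.of_apply]
    exact hEP' a (y b)
  have hval : Φ D = (Matrix.of fun a b => D a (algebraMap K L (yP b))).det ^ m *
      algebraMap K L (ω EP) := by
    rw [pluri_coord (hl.bas.algebraMap_comp (A := L)) (lift_dual hl.dual hEP') hpl D, hv]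
    rfl
  rw [hval]
  rcases hω.2 P hP EP (fun l f hf => hl.pres l f hf) with h0 | ⟨s, hs, hs0, h1⟩
  · left
    rw [h0, map_zero, mul_zero]
  by_cases h2 : (Matrix.of fun a b => D a (algebraMap K L (yP b))).det ^ m *
      algebraMap K L (ω EP) = 0
  · exact Or.inl h2
  right
  refine ⟨algebraMap K L s, Finset.mem_image_of_mem _ hs, (_root_.map_ne_zero _).2 hs0, ?_⟩
  have h3 := (pull_reg h hl hD (m := m) (ω := ω) (ge_ord P (ω EP))).resolve_left h2
  have h4 : ((m : ℚ) * (e - 1) + e * (P.ord (ω EP) : ℚ)) ≤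
      (Q.ord ((Matrix.of fun a b => D a (algebraMap K L (yP b))).det ^ m *
        algebraMap K L (ω EP)) : ℚ) := by exact_mod_cast h3
  have h5 := hδ Q P e h hP
  have h6 : ((Q.ord (algebraMap K L s) : ℤ) : ℚ) = e * (P.ord s : ℚ) := by
    rw [h.2]
    push_cast
    ring
  rw [h6]
  have he : (0 : ℚ) ≤ e := Nat.cast_nonneg _
  have hm : (0 : ℚ) ≤ m := Nat.cast_nonneg _
  nlinarith [mul_le_mul_of_nonneg_left h1 he, mul_le_mul_of_nonneg_left h5 hm]

/-- the numerical dimension under finite extensions -/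
theorem pairNum_down (hn : Algebra.trdeg ℂ K = n)
    {δ : Place ℂ K → ℚ} {δ' : Place ℂ L → ℚ}
    (hδ : ∀ (Q : Place ℂ L) (P : Place ℂ K) (e : ℕ), Over Q P e → Divisorial n P →
      (e : ℚ) * δ P - (e - 1) ≤ δ' Q) {a : ℕ} (hL : PairNumLe ℂ L n δ' a) :
    PairNumLe ℂ K n δ a := by
  classical
  obtain ⟨y, E, hy, hE⟩ := exists_crd (k := ℂ) (K := K) hn
  choose E' hE' using fun i => exists_lift (L := L) hn (E i)
  intro S
  obtain ⟨C, hC⟩ := hL (S.image (algebraMap K L))
  refine ⟨C, fun m N hm hI => hC m N hm ?_⟩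
  obtain ⟨ω, hli, hω⟩ := hI
  have hval : ∀ l, (Matrix.of fun a b => E' a (algebraMap K L (y b))).det ^ m *
      algebraMap K L (ω l E) = algebraMap K L (ω l E) := by
    intro l
    have h1 : (Matrix.of fun a b => E' a (algebraMap K L (y b))) = 1 := by
      ext a b
      rw [Matrix.of_apply, Matrix.one_apply]
      exact lift_dual hE hE' a b
    rw [h1, Matrix.det_one, one_pow, one_mul]
  refine ⟨fun l D => (Matrix.of fun a b => D a (algebraMap K L (y b))).det ^ m *
    algebraMap K L (ω l E), ?_, fun l => pair_pull hn hy hE hδ S m 1 (hω l)⟩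
  rw [Fintype.linearIndependent_iff] at hli ⊢
  intro c hc
  apply hli
  have h1 : ∑ l, c l • ω l E = 0 := by
    have h2 := congrFun hc E'
    rw [Finset.sum_apply] at h2
    simp only [Pi.smul_apply, Pi.zero_apply, hval] at h2
    have h3 : algebraMap K L (∑ l, c l • ω l E) = 0 := by
      rw [← h2, map_sum]
      refine Finset.sum_congr rfl fun l _ => ?_
      rw [Algebra.smul_def, Algebra.smul_def, map_mul, ← IsScalarTower.algebraMap_apply ℂ K L]
    exact (map_eq_zero _).1 h3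
  funext D
  rw [Finset.sum_apply]
  simp only [Pi.smul_apply, Pi.zero_apply]
  have h4 : ∀ l, c l • ω l D = (Matrix.of fun i j => D i (y j)).det ^ m * (c l • ω l E) := by
    intro l
    rw [pluri_coord hy hE (hω l).1 D, mul_smul_comm]
  rw [Finset.sum_congr rfl fun l _ => h4 l, ← Finset.mul_sum, h1, mul_zero]

end

end Pool.Agent.T2h09.PR
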