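import Pool.Agent.T2h09.ND.Loc

/-!
Norms of pluricanonical forms with fractional poles, and the determinants of the trace form with
respect to two bases.
-/

set_option autoImplicit false
set_option linter.overlappingInstances false
set_option linter.unusedSectionVars false

open FF Polynomial Pool.Agent.W603.LV Pool.Agent.W619.PQ Pool.Agent.W602.GT Pool.Agent.Y172
open Pool.Agent.Y692.NT Pool.Agent.T2h09.ND

namespace Pool.Agent.T2h09.PR

section

variable {K L : Type*} [Field K] [Field L] [Algebra K L] {ι : Type*} [Fintype ι] [DecidableEq ι]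

/-- the determinant of the trace form with respect to two bases -/
noncomputable def dt (h h' : Module.Basis ι K L) : K :=
  (Matrix.of fun i j => Algebra.trace K L (h i * h' j) : Matrix ι ι K).det

/-- the determinant of the trace form which is twisted by `g` -/
theorem det_trace_mul2 (h h' : Module.Basis ι K L) (g : L) :
    (Matrix.of fun i j => Algebra.trace K L (g * h i * h' j) : Matrix ι ι K).det =
      Algebra.norm K g * dt h h' := by
  have h1 : (Matrix.of fun i j => Algebra.trace K L (g * h i * h' j) : Matrix ι ι K) =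
      (Matrix.of fun i j => Algebra.trace K L (h i * h' j)) * Algebra.leftMulMatrix h' g := by
    ext i j
    rw [Matrix.of_apply, Matrix.mul_apply]
    have h2 : g * h' j = ∑ l, Algebra.leftMulMatrix h' g l j • h' l := by
      have h3 := h'.sum_repr (g * h' j)
      conv_lhs => rw [← h3]
      refine Finset.sum_congr rfl fun l _ => ?_
      rw [Algebra.leftMulMatrix_eq_repr_mul]
    have h4 : g * h i * h' j = ∑ l, Algebra.leftMulMatrix h' g l j • (h i * h' l) := by
      have h5 : g * h i * h' j = h i * (g * h' j) := by ring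
      rw [h5, h2, Finset.mul_sum]
      refine Finset.sum_congr rfl fun l _ => ?_
      rw [mul_smul_comm]
    rw [h4, map_sum]
    refine Finset.sum_congr rfl fun l _ => ?_
    rw [map_smul, smul_eq_mul, mul_comm]
    rfl
  rw [h1, Matrix.det_mul, mul_comm, Algebra.norm_eq_matrix_det h']
  rfl

theorem dt_ne [Algebra.IsSeparable K L] (h h' : Module.Basis ι K L) : dt h h' ≠ 0 := by
  have hfd : FiniteDimensional K L := Module.Finite.of_basis h
  have h1 : (Matrix.of fun i j => Algebra.trace K L (h i * h' j) : Matrix ι ι K) =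
      Algebra.traceMatrix K h * h.toMatrix h' := by
    ext i j
    rw [Matrix.of_apply, Matrix.mul_apply]
    have h2 : h' j = ∑ l, h.toMatrix h' l j • h l := (h.sum_toMatrix_smul_self h' j).symm
    conv_lhs => rw [h2, Finset.mul_sum, map_sum]
    refine Finset.sum_congr rfl fun l _ => ?_
    rw [mul_smul_comm, map_smul, smul_eq_mul, mul_comm]
    rfl
  rw [dt, h1, Matrix.det_mul]
  refine mul_ne_zero (Algebra.discr_not_zero_of_basis K h) ?_
  rw [← Module.Basis.det_apply]
  exact (h.isUnit_det h').ne_zero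

end

section

variable {k K L : Type} [Field k] [CharZero k] [Field K] [Field L] [Algebra k K] [Algebra k L]
  [Algebra K L] [IsScalarTower k K L] [FiniteDimensional K L]
  {ι : Type} [Fintype ι] [DecidableEq ι]

/-- the order of a norm -/
theorem norm_ge (P : Place k K) (y : L) (c : ℚ)
    (hy : ∀ (Q : Place k L) (e : ℕ), Over Q P e → y = 0 ∨ (e : ℚ) * c ≤ Q.ord y) :
    Algebra.norm K y = 0 ∨ (Module.finrank K L : ℚ) * c ≤ P.ord (Algebra.norm K y) := by
  by_cases hy0 : y = 0
  · left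
    rw [hy0, Algebra.norm_zero]
  right
  have hN0 : Algebra.norm K y ≠ 0 := by
    rw [Ne, Algebra.norm_eq_zero_iff]
    exact hy0
  obtain ⟨b, hb0, hb⟩ := exists_unif_zpow P (-c.num)
  have hbL : algebraMap K L b ≠ 0 := (_root_.map_ne_zero _).2 hb0
  have hq : (0 : ℚ) < c.den := by exact_mod_cast c.den_pos
  have hc : (c.num : ℚ) = c * c.den := (Rat.mul_den_eq_num c).symm
  have h1 : Ge P 0 (Algebra.norm K (algebraMap K L b * y ^ c.den)) := by
    refine norm_reg P _ fun Q e h' => ?_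
    right
    rw [Q.ord_mul hbL (pow_ne_zero _ hy0), Q.ord_pow, h'.2, hb]
    have h2 := (hy Q e h').resolve_left hy0
    have h3 : (0 : ℚ) ≤ (e : ℚ) * (-(c.num : ℚ)) + c.den * (Q.ord y : ℚ) := by
      rw [hc]
      have h4 := mul_le_mul_of_nonneg_left h2 hq.le
      linarith
    exact_mod_cast h3
  rw [map_mul, map_pow, Algebra.norm_algebraMap] at h1
  have h2 := h1.resolve_left (mul_ne_zero (pow_ne_zero _ hb0) (pow_ne_zero _ hN0))
  rw [P.ord_mul (pow_ne_zero _ hb0) (pow_ne_zero _ hN0), P.ord_pow, P.ord_pow, hb] at h2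
  have h3 : (0 : ℚ) ≤ (Module.finrank K L : ℚ) * (-(c.num : ℚ)) +
      c.den * (P.ord (Algebra.norm K y) : ℚ) := by exact_mod_cast h2
  rw [hc] at h3
  have h4 : (c.den : ℚ) * ((Module.finrank K L : ℚ) * c) ≤
      c.den * (P.ord (Algebra.norm K y) : ℚ) := by linarith
  exact le_of_mul_le_mul_left h4 hq

/-- **The local lemma** for two bases and fractional poles. -/
theorem norm_disc_ge (P : Place k K) (h h' : Module.Basis ι K L) (s : ℕ) (c : ℚ) (θ : L)
    (hθ : ∀ (Q : Place k L) (e : ℕ), Over Q P e → ∀ i j, (h i * h' j) ^ s * θ = 0 ∨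
      (e : ℚ) * c + s * (1 - (e : ℚ)) ≤ Q.ord ((h i * h' j) ^ s * θ)) :
    Algebra.norm K θ * dt h h' ^ s = 0 ∨
      (Module.finrank K L : ℚ) * c ≤ P.ord (Algebra.norm K θ * dt h h' ^ s) := by
  classical
  have hne : Nonempty ι := h.index_nonempty
  have hK : CharZero K := charZero_of_injective_algebraMap (algebraMap k K).injective
  by_cases hθ0 : θ = 0
  · left
    rw [hθ0, Algebra.norm_zero, zero_mul]
  right
  obtain ⟨S, T, hS, hT, -⟩ := exists_places_over (K' := L) P
  have hT' : ∀ Q ∈ S, ∃ e : ℕ, Over Q P e := fun Q hQ => by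
    obtain ⟨e, he, -⟩ := hT Q hQ
    exact ⟨e, he⟩
  -- the minimal orders of the bases
  have hmin : ∀ Q : Place k L, ∃ j, ∀ i, Q.ord (h j) ≤ Q.ord (h i) := fun Q =>
    Finite.exists_min fun i => Q.ord (h i)
  have hmin' : ∀ Q : Place k L, ∃ j, ∀ i, Q.ord (h' j) ≤ Q.ord (h' i) := fun Q =>
    Finite.exists_min fun i => Q.ord (h' i)
  choose j0 hj0 using hmin
  choose j1 hj1 using hmin'
  have hex : ∀ Q : Place k L, ∃ e : ℕ, Q ∈ S → Over Q P e := by
    intro Q
    by_cases hQ : Q ∈ S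
    · obtain ⟨e, he⟩ := hT' Q hQ
      exact ⟨e, fun _ => he⟩
    · exact ⟨0, fun h => absurd h hQ⟩
  choose e he using hex
  obtain ⟨g, hg0, hg⟩ := exists_ord S fun Q =>
    (1 - (e Q : ℤ)) - Q.ord (h (j0 Q)) - Q.ord (h' (j1 Q))
  have hh0 : ∀ j, h j ≠ 0 := fun j => h.ne_zero j
  have hh0' : ∀ j, h' j ≠ 0 := fun j => h'.ne_zero j
  have hev : ∀ (Q : Place k L) (e' : ℕ), Over Q P e' → Q ∈ S ∧ e' = e Q := by
    intro Q e' h'
    have hQ := hS Q e' h'
    exact ⟨hQ, (Pool.Agent.Y172.over_unique' h' (he Q hQ)).2⟩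
  -- the determinant of the twisted trace form
  have h1 : Ge P 0 (Algebra.norm K g * dt h h') := by
    rw [← det_trace_mul2 h h' g]
    refine det_reg P _ fun i j => ?_
    rw [Matrix.of_apply]
    refine Pool.Agent.Y692.NT.trace_reg P _ fun Q e' h'' => ?_
    obtain ⟨hQ, rfl⟩ := hev Q e' h''
    right
    rw [Q.ord_mul (mul_ne_zero hg0 (hh0 i)) (hh0' j), Q.ord_mul hg0 (hh0 i), hg Q hQ]
    have h2 := hj0 Q i
    have h3 := hj1 Q j
    linarith
  have h2 : Algebra.norm K (θ / g ^ s) = 0 ∨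
      (Module.finrank K L : ℚ) * c ≤ P.ord (Algebra.norm K (θ / g ^ s)) := by
    refine norm_ge P _ c fun Q e' h'' => ?_
    obtain ⟨hQ, rfl⟩ := hev Q e' h''
    right
    rw [Q.ord_div hθ0 (pow_ne_zero _ hg0), Q.ord_pow, hg Q hQ]
    have h3 := (hθ Q _ h'' (j0 Q) (j1 Q)).resolve_left
      (mul_ne_zero (pow_ne_zero _ (mul_ne_zero (hh0 _) (hh0' _))) hθ0)
    rw [Q.ord_mul (pow_ne_zero _ (mul_ne_zero (hh0 _) (hh0' _))) hθ0, Q.ord_pow,
      Q.ord_mul (hh0 _) (hh0' _)] at h3
    push_cast at h3 ⊢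
    linarith
  have hg1 : θ = θ / g ^ s * g ^ s := by
    rw [div_mul_cancel₀ _ (pow_ne_zero _ hg0)]
  have h3 : Algebra.norm K θ * dt h h' ^ s =
      Algebra.norm K (θ / g ^ s) * (Algebra.norm K g * dt h h') ^ s := by
    conv_lhs => rw [hg1, map_mul, map_pow]
    ring
  have hdt : dt h h' ≠ 0 := dt_ne h h'
  have hNg : Algebra.norm K g ≠ 0 := by
    rw [Ne, Algebra.norm_eq_zero_iff]
    exact hg0
  have hN2 : Algebra.norm K (θ / g ^ s) ≠ 0 := by
    rw [Ne, Algebra.norm_eq_zero_iff]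
    exact div_ne_zero hθ0 (pow_ne_zero _ hg0)
  have h4 := h1.resolve_left (mul_ne_zero hNg hdt)
  rw [h3, P.ord_mul hN2 (pow_ne_zero _ (mul_ne_zero hNg hdt)), P.ord_pow]
  have h5 := h2.resolve_left hN2
  have h6 : (0 : ℚ) ≤ (s : ℚ) * (P.ord (Algebra.norm K g * dt h h') : ℚ) :=
    mul_nonneg (Nat.cast_nonneg _) (by exact_mod_cast h4)
  push_cast
  linarith

end

end Pool.Agent.T2h09.PR
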