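import Pool.Agent.T2h09.PR.Grow

/-!
Descent of Kodaira dimensions of pairs by norms and determinants of the trace form.
-/

set_option autoImplicit false
set_option linter.overlappingInstances false
set_option linter.unusedSectionVars false

open FF Polynomial Pool.Agent.W603.LV Pool.Agent.W619.PQ Pool.Agent.W602.GT Pool.Agent.Y172
open Pool.Agent.Y692.NT Pool.Agent.T2h09.ND Pool.Agent.W619.TW

namespace Pool.Agent.T2h09.PR

section

variable {K L : Type} [Field K] [Field L] [Algebra ℂ K] [Algebra ℂ L] [Algebra K L]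
  [IsScalarTower ℂ K L] [FiniteDimensional K L] {n : ℕ}

/-- **Descent of the Kodaira dimension of pairs.** -/
theorem pairKod_descent [Algebra.EssFiniteType ℂ K] [Algebra.EssFiniteType ℂ L]
    (hn : Algebra.trdeg ℂ K = n) {ι : Type} [Fintype ι] (h h' : Module.Basis ι K L)
    {δ : Place ℂ K → ℚ} {γ : Place ℂ L → ℚ} {m s : ℕ} (hm : 0 < m)
    (hγ : ∀ (Q : Place ℂ L) (P : Place ℂ K) (e : ℕ), Over Q P e → Divisorial n P →
      (m : ℚ) * γ Q ≤ m * (e * δ P) + ((s : ℚ) - m) * (e - 1))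
    {a : ℕ} (W : Fin (a + 1) → (Fin n → Derivation ℂ L L) → L)
    (hreg : ∀ l, ∀ i j, IsPairSec ℂ L n γ {1} m 0 fun D => (h i * h' j) ^ s * W l D)
    (hind : ∃ D, W 0 D ≠ 0 ∧ AlgebraicIndependent ℂ fun i : Fin a => W i.succ D / W 0 D) :
    PairKodGe ℂ K n δ a := by
  classical
  have hne : Nonempty ι := h.index_nonempty
  have hhh : ∀ i j, (h i * h' j) ^ s ≠ 0 := fun i j =>
    pow_ne_zero _ (mul_ne_zero (h.ne_zero i) (h'.ne_zero j))
  have hW : ∀ l, IsPluri m (W l) := by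
    intro l A D
    obtain ⟨i⟩ := hne
    have h1 := (hreg l i i).1 A D
    have h2 : (h i * h' i) ^ s * W l (fun i => ∑ j, A i j • D j) =
        A.det ^ m * ((h i * h' i) ^ s * W l D) := h1
    have h3 : (h i * h' i) ^ s * W l (fun i => ∑ j, A i j • D j) =
        (h i * h' i) ^ s * (A.det ^ m * W l D) := by
      rw [h2]
      ring
    exact mul_left_cancel₀ (hhh i i) h3
  obtain ⟨y, E, hy, hE⟩ := exists_crd (k := ℂ) (K := K) hn
  choose E' hE' using fun i => exists_lift (L := L) hn (E i)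
  have hyL : IsTranscendenceBasis ℂ (fun j => algebraMap K L (y j)) := hy.algebraMap_comp
  have hEL := lift_dual hE hE'
  obtain ⟨D, hD0, hDind⟩ := hind
  have hco : ∀ i, W i D = (Matrix.of fun i j => D i (algebraMap K L (y j))).det ^ m * W i E' :=
    fun i => pluri_coord hyL hEL (hW i) D
  have hdet : (Matrix.of fun i j => D i (algebraMap K L (y j)) :
      Matrix (Fin n) (Fin n) L).det ^ m ≠ 0 := by
    intro h0
    apply hD0
    rw [hco, h0, zero_mul]
  have hW0 : W 0 E' ≠ 0 := by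
    intro h0
    apply hD0
    rw [hco, h0, mul_zero]
  obtain ⟨u, hu⟩ : ∃ u : Fin a → L, u = fun i => W i.succ E' / W 0 E' := ⟨_, rfl⟩
  have hind : AlgebraicIndependent ℂ u := by
    have h1 : (fun i : Fin a => W i.succ D / W 0 D) = u := by
      funext i
      rw [hco, hco, hu, mul_div_mul_left _ _ hdet]
    rw [← h1]
    exact hDind
  have hcK : CharZero K := charZero_of_injective_algebraMap (algebraMap ℂ K).injective
  have hdisc : dt h h' ≠ 0 := dt_ne h h'
  have hcomb : ∀ (i : Fin (a + 1)) (c : ℂ), IsPluri m fun D => algebraMap ℂ L c * W 0 D - W i D := by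
    intro i c A D
    change algebraMap ℂ L c * W 0 _ - W i _ = _
    rw [hW 0 A D, hW i A D]
    ring
  have hR : ∀ l, ∀ Q : Place ℂ L, Divisorial n Q → ∀ i j, ∀ D : Fin n → Derivation ℂ L L,
      (∀ l, DerReg Q (D l)) →
      (h i * h' j) ^ s * W l D = 0 ∨ -((m : ℚ) * γ Q) ≤ Q.ord ((h i * h' j) ^ s * W l D) :=
    fun l Q hQ i j D hD => (pairSec_iff.1 (hreg l i j)).2 Q hQ D hD
  have hcombreg : ∀ (l : Fin (a + 1)) (c : ℂ), ∀ Q : Place ℂ L, Divisorial n Q → ∀ i j,
      ∀ D : Fin n → Derivation ℂ L L, (∀ l, DerReg Q (D l)) →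
      (h i * h' j) ^ s * (algebraMap ℂ L c * W 0 D - W l D) = 0 ∨
        -((m : ℚ) * γ Q) ≤ Q.ord ((h i * h' j) ^ s * (algebraMap ℂ L c * W 0 D - W l D)) := by
    intro l c Q hQ i j G hG
    obtain ⟨z, hz⟩ : ∃ z : ℤ, z = ⌈-((m : ℚ) * γ Q)⌉ := ⟨_, rfl⟩
    have hge : ∀ f : L, (f = 0 ∨ -((m : ℚ) * γ Q) ≤ Q.ord f) ↔ Ge Q z f := by
      intro f
      rw [hz]
      constructor
      · rintro (hf | hf)
        · exact Or.inl hf
        · exact Or.inr (Int.ceil_le.2 hf)
      · rintro (hf | hf)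
        · exact Or.inl hf
        · exact Or.inr (Int.ceil_le.1 hf)
    have h1 := (hge _).1 (hR 0 Q hQ i j G hG)
    have h2 := (hge _).1 (hR l Q hQ i j G hG)
    have h3 : (h i * h' j) ^ s * (algebraMap ℂ L c * W 0 G - W l G) =
        algebraMap ℂ L c * ((h i * h' j) ^ s * W 0 G) + (-1) * ((h i * h' j) ^ s * W l G) := by ring
    rw [hge, h3]
    refine Ge.add ?_ ?_
    · have h4 := (Ge.mul (P := Q) (N := 0) (Q.reg_const c) h1)
      rwa [zero_add] at h4
    · have h4 := (Ge.mul (P := Q) (N := 0) (Q.reg_neg (by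
        have := Q.reg_const 1
        rwa [map_one] at this)) h2)
      rwa [zero_add] at h4
  let T : Option (Fin (a + 1) × ℂ) → K := fun f => match f with
    | none => Algebra.norm K (W 0 E') * dt h h' ^ s
    | some (i, c) => Algebra.norm K (algebraMap ℂ L c * W 0 E' - W i E') * dt h h' ^ s
  have hN0 : Algebra.norm K (W 0 E') ≠ 0 := by
    rw [Ne, Algebra.norm_eq_zero_iff]
    exact hW0
  obtain ⟨ω, hω, hω0, hωi⟩ := pairKod_of_values (L := L) hE (M := Module.finrank K L * m)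
    (δ := δ) T none (mul_ne_zero hN0 (pow_ne_zero _ hdisc))
    (fun f => pairSec_iff.2 ⟨pf_pluri _ _ _, fun P hP G hG => by
      match f with
      | none => exact normForm_pair hn hy hE hE' h h' (hW 0) hγ (hR 0) P hP G hG
      | some (i, c) => exact normForm_pair hn hy hE hE' h h' (hcomb i c) hγ (hcombreg i c) P hP G hG⟩)
    hind fun j => by
      refine alg_of_norms (u j) _ fun c => IntermediateField.subset_adjoin _ _ ⟨some (j.succ, c), ?_⟩
      change Algebra.norm K (algebraMap ℂ L c * W 0 E' - W j.succ E') * dt h h' ^ s /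
        (Algebra.norm K (W 0 E') * dt h h' ^ s) = _
      rw [mul_div_mul_right _ _ (pow_ne_zero _ hdisc), div_eq_iff hN0, ← map_mul]
      congr 1
      rw [hu, sub_mul, div_mul_cancel₀ _ hW0]
  exact pairKodGe_of_indep (Nat.mul_pos Module.finrank_pos hm) hω hω0 hωi

end

/-- the Kodaira dimension is at most the numerical dimension -/
theorem kod_le_num {K : Type} [Field K] [Algebra ℂ K] {n : ℕ} {δ : Place ℂ K → ℚ} {a b : ℕ}
    (h1 : PairKodGe ℂ K n δ b) (h2 : PairNumLe ℂ K n δ a) : b ≤ a := by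
  obtain ⟨m, hm, h⟩ := h1
  obtain ⟨C, hC⟩ := h2 {1}
  by_contra hlt
  push Not at hlt
  have key : ∀ j : ℕ, 1 ≤ j → j ^ b ≤ C * (j * m) ^ a := by
    intro j hj
    refine hC (j * m) (j ^ b) (Nat.mul_pos hj hm) ?_
    obtain ⟨ω, hli, hω⟩ := h j hj
    refine ⟨ω, hli, fun l => ?_⟩
    obtain ⟨h3, h4⟩ := hω l
    refine ⟨h3, fun v hv D hD => ?_⟩
    rcases h4 v hv D hD with h | ⟨s, hs, hs0, h⟩
    · exact Or.inl h
    · right
      rw [Finset.mem_singleton] at hs
      refine ⟨1, Finset.mem_singleton_self _, one_ne_zero, ?_⟩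
      rw [v.ord_one]
      rw [Nat.cast_zero, zero_mul] at h
      simpa using h
  have h5 := key (C * m ^ a + 1) (Nat.succ_pos _)
  obtain ⟨c, rfl⟩ := Nat.exists_eq_add_of_lt hlt
  have h6 : (C * m ^ a + 1) ^ (a + c + 1) = (C * m ^ a + 1) ^ a * (C * m ^ a + 1) ^ (c + 1) := by
    rw [add_assoc, pow_add]
  have h7 : C * ((C * m ^ a + 1) * m) ^ a = (C * m ^ a + 1) ^ a * (C * m ^ a) := by
    rw [mul_pow]
    ring
  rw [h6, h7] at h5
  have h8 := Nat.le_of_mul_le_mul_left h5 (pow_pos (Nat.succ_pos _) _)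
  have h9 : C * m ^ a + 1 ≤ (C * m ^ a + 1) ^ (c + 1) := by
    calc C * m ^ a + 1 = (C * m ^ a + 1) ^ 1 := (pow_one _).symm
      _ ≤ (C * m ^ a + 1) ^ (c + 1) := Nat.pow_le_pow_right (Nat.succ_pos _) (by omega)
  omega

end Pool.Agent.T2h09.PR
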